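import Pool.Agent.Helper96.GP.FI
import Pool.Agent.Helper96.GP.Plane

/-!
MP_1b5634_co: `gp(G_n) ≤ (7/10) n` for all large `n`.

The definitions `grid`, `GenPos`, `Partitions` and `gp` are in `Pool/Agent/Helper96/GP/Plane.lean`.
-/

set_option autoImplicit false

open Filter GPG

namespace Pool.Agent.Results.MP_1b5634_co.SeventyPercent

/-- For all sufficiently large `n` the grid `G_n = {1, ..., n}²` can be partitioned into at most
`(7/10) n` sets in general position. -/
theorem result :
    (∀ n : ℕ, Partitions (grid n) (gp (grid n))) ∧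
    (∃ N : ℕ, ∀ n ≥ N, (gp (grid n) : ℝ) ≤ 7 / 10 * n) ∧
    limsup (fun n : ℕ => (gp (grid n) : ℝ) / n) atTop ≤ 7 / 10 := by
  obtain ⟨N, hN⟩ := colouring
  have h : ∀ n ≥ N, (gp (grid n) : ℝ) ≤ 7 / 10 * n := by
    intro n hn
    obtain ⟨k, f, hk, h1, h2⟩ := hN n hn
    exact le_trans (by exact_mod_cast gp_le f h1 h2) hk
  refine ⟨gp_attained, ⟨N, h⟩, ?_⟩
  refine limsup_le_of_le ?_ ?_
  · refine isCoboundedUnder_le_of_le atTop (x := 0) fun n => by positivity
  · filter_upwards [eventually_ge_atTop N] with n hn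
    rcases Nat.eq_zero_or_pos n with h0 | h0
    · subst h0
      simp only [Nat.cast_zero, div_zero]
      norm_num
    · have hn0 : (0 : ℝ) < n := by exact_mod_cast h0
      rw [div_le_iff₀ hn0]
      exact h n hn

end Pool.Agent.Results.MP_1b5634_co.SeventyPercent
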